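import Mathlib
import Pool.Agent.helper35.DR.SpecT

/-!
# Project dr, module TPR: the tensor product of projective representations, for the fibre square
-/

set_option autoImplicit false

namespace Pool.Agent.DR

open Pool.Agent.helper58.DC Pool.Agent.DI
open scoped TensorProduct

theorem TPR_tens {G : Type} [Group G] (ψ : TT → G → ℂ) (x : TT → G) :
    tens ψ x = ψ t₀ (x t₀) * ψ t₁ (x t₁) := by
  unfold tens
  have h : (Finset.univ : Finset TT) = {t₀, t₁} := by
    ext t
    constructor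
    · intro _
      rw [Finset.mem_insert, Finset.mem_singleton]
      cases t
      · exact Or.inl rfl
      · exact Or.inr rfl
    · intro _
      exact Finset.mem_univ _
  have h01 : (t₀ : TT) ≠ t₁ := by
    intro h
    exact Bool.false_ne_true h
  rw [h, Finset.prod_pair h01]

theorem TPR : TPR_stmt := by
  intro G E A _ _ _ X S ψ α h
  obtain ⟨V0, i0, j0, k0, T0, h0⟩ := h t₀
  obtain ⟨V1, i1, j1, k1, T1, h1⟩ := h t₁
  have hpr : ∀ (e : KE X (diag A)) (t : TT), X.proj (e.f t) = (X2 X).proj e := fun e t => e.h t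
  refine ⟨V0 ⊗[ℂ] V1, inferInstance, inferInstance, inferInstance,
    fun e => TensorProduct.map (T0 (e.f t₀)) (T1 (e.f t₁)), ?_, ?_, ?_⟩
  · change TensorProduct.map (T0 1) (T1 1) = 1
    rw [h0.one, h1.one]
    exact TensorProduct.map_id
  · intro s hs s' hs'
    change TensorProduct.map (T0 (s.f t₀)) (T1 (s.f t₁)) *
      TensorProduct.map (T0 (s'.f t₀)) (T1 (s'.f t₁)) = _ •
        TensorProduct.map (T0 (s.f t₀ * s'.f t₀)) (T1 (s.f t₁ * s'.f t₁))
    have e0 := h0.mul (s.f t₀) (hs t₀) (s'.f t₀) (hs' t₀)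
    have e1 := h1.mul (s.f t₁) (hs t₁) (s'.f t₁) (hs' t₁)
    rw [hpr s t₀, hpr s' t₀] at e0
    rw [hpr s t₁, hpr s' t₁] at e1
    have hm : TensorProduct.map (T0 (s.f t₀)) (T1 (s.f t₁)) *
        TensorProduct.map (T0 (s'.f t₀)) (T1 (s'.f t₁)) =
        TensorProduct.map (T0 (s.f t₀) * T0 (s'.f t₀)) (T1 (s.f t₁) * T1 (s'.f t₁)) :=
      (TensorProduct.map_mul _ _ _ _).symm
    rw [hm, e0, e1, TensorProduct.map_smul_left, TensorProduct.map_smul_right, smul_smul]
    rw [← Units.val_mul]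
    rfl
  · intro e he
    have he1 : (X2 X).proj e = 1 := he.2
    obtain ⟨x, rfl⟩ := ((X2 X).exact e).1 he1
    have hinj := (X2 X).inc_injective
    have hl : ext0 (X2 X).inc (tens ψ) ((X2 X).inc x) = tens ψ x := by
      unfold ext0
      exact hinj.extend_apply _ _ _
    have hr : ∀ t, ext0 X.inc (ψ t) (X.inc (x t)) = ψ t (x t) := by
      intro t
      unfold ext0
      exact X.inc_injective.extend_apply _ _ _
    have hk : ∀ t, X.inc (x t) ∈ S t ⊓ X.proj.ker := by
      intro t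
      refine ⟨he.1 t, ?_⟩
      exact (X.exact _).2 ⟨x t, rfl⟩
    rw [hl, TPR_tens, ← hr t₀, ← hr t₁, h0.tr _ (hk t₀), h1.tr _ (hk t₁)]
    exact (LinearMap.trace_tensorProduct' (R := ℂ) (M := V0) (N := V1) (T0 (X.inc (x t₀)))
      (T1 (X.inc (x t₁)))).symm

end Pool.Agent.DR
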